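import Pool.Agent.R217.FS.Slope

set_option autoImplicit false

open MeasureTheory Filter Topology Set
open scoped ContDiff Convolution

namespace Pool.Agent.R217.FS

variable {s L P ξ0 : ℝ} {H : ℝ → ℝ}

/-- The first term. -/
lemma T1_bound {κ d l Λ : ℝ} (h1 : s < 1) (hκ : 0 < κ) (hd : 0 < d) (hd1 : d ≤ 1)
    (hκl : 32 * κ ^ (2 - 2 * s) / (1 - s) ≤ l / 16) (hΛ : d ^ (1 - 2 * s) ≤ 16 * Λ)
    (hΛ0 : 0 ≤ Λ) :
    (1 / d + 1) * (κ * d) ^ (2 - 2 * s) / (1 - s) ≤ l / 16 * Λ := by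
  have h1s : 0 < 1 - s := by linarith
  have e1 : d ^ (2 - 2 * s) = d * d ^ (1 - 2 * s) := by
    nth_rewrite 2 [← Real.rpow_one d]
    rw [← Real.rpow_add hd]; congr 1; ring
  have e2 : (1 / d + 1) * d ≤ 2 := by
    have : (1 / d + 1) * d = 1 + d := by field_simp
    linarith
  have hp : 0 < d ^ (1 - 2 * s) := Real.rpow_pos_of_pos hd _
  have hk : 0 < κ ^ (2 - 2 * s) := Real.rpow_pos_of_pos hκ _
  rw [Real.mul_rpow hκ.le hd.le, e1]
  calc (1 / d + 1) * (κ ^ (2 - 2 * s) * (d * d ^ (1 - 2 * s))) / (1 - s) =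
        ((1 / d + 1) * d) * (κ ^ (2 - 2 * s) / (1 - s)) * d ^ (1 - 2 * s) := by ring
    _ ≤ 2 * (κ ^ (2 - 2 * s) / (1 - s)) * (16 * Λ) := by gcongr
    _ = 32 * κ ^ (2 - 2 * s) / (1 - s) * Λ := by ring
    _ ≤ _ := mul_le_mul_of_nonneg_right hκl hΛ0

theorem case_slope (h : Profile s L P ξ0 H) (hs : 1 / 2 ≤ s) (h1 : s < 1) {m : ℝ}
    (hm : Tendsto (deriv H) (𝓝[<] ξ0) (𝓝 m)) (hm0 : m < 0) : False := by
  have h0 : 0 < s := by linarith
  have h1s : 0 < 1 - s := by linarith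
  have hP := P_nonneg h
  obtain ⟨l, hl⟩ : ∃ l, l = -m := ⟨_, rfl⟩
  have hl0 : 0 < l := by linarith
  -- lower bound for the right-hand side
  obtain ⟨C0, hC0⟩ : ∃ C0, C0 = ξ0 * l / (2 * s) + 1 := ⟨_, rfl⟩
  have hC00 : 0 < C0 := by rw [hC0]; have := h.pos; positivity
  have hff : ∃ δ, 0 < δ ∧ ∀ ξ, ξ0 - δ < ξ → ξ < ξ0 → -C0 ≤ ff s H ξ := by
    have h2 : Tendsto (ff s H) (𝓝[<] ξ0) (𝓝 (1 / (2 * s) * (ξ0 * m))) := by
      unfold ff
      exact ((tendsto_nhdsWithin_of_tendsto_nhds tendsto_id).mul hm).const_mul _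
    have h3 : -C0 < 1 / (2 * s) * (ξ0 * m) := by
      have : 1 / (2 * s) * (ξ0 * m) = -(ξ0 * l / (2 * s)) := by rw [hl]; ring
      rw [this, hC0]; linarith
    have h4 := h2.eventually (lt_mem_nhds h3)
    rw [eventually_nhdsWithin_iff, Metric.eventually_nhds_iff] at h4
    obtain ⟨δ, hδ, h5⟩ := h4
    refine ⟨δ, hδ, fun ξ hξ1 hξ2 => (h5 (y := ξ) ?_ hξ2).le⟩
    rw [Real.dist_eq, abs_of_neg (by linarith)]
    linarith
  obtain ⟨δ, hδ, hffδ⟩ := hff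
  -- the choice of `κ`
  have hκ : ∃ κ : ℝ, 0 < κ ∧ κ ≤ 1 ∧ 32 * κ ^ (2 - 2 * s) / (1 - s) ≤ l / 16 := by
    have hlim : Tendsto (fun r : ℝ => 32 * r ^ (2 - 2 * s) / (1 - s)) (𝓝[>] 0) (𝓝 0) := by
      have hc : Continuous fun r : ℝ => r ^ (2 - 2 * s) := by
        apply Continuous.rpow_const continuous_id
        intro x; right; linarith
      have h4 := (hc.tendsto 0).mono_left (nhdsWithin_le_nhds (s := Ioi 0))
      rw [Real.zero_rpow (by linarith)] at h4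
      have := (h4.const_mul 32).div_const (1 - s)
      simpa using this
    have hev := hlim.eventually (gt_mem_nhds (by positivity : 0 < l / 16))
    have hev2 : ∀ᶠ r : ℝ in 𝓝[>] 0, r ≤ 1 :=
      nhdsWithin_le_nhds (Iic_mem_nhds one_pos)
    obtain ⟨r, hr1, hr2, hr3⟩ := (hev.and (hev2.and self_mem_nhdsWithin)).exists
    exact ⟨r, hr3, hr2, hr1.le⟩
  obtain ⟨κ, hκ0, hκ1, hκl⟩ := hκ
  obtain ⟨K2, hK2⟩ : ∃ K2, K2 = κ ^ (-(2 * s)) / (2 * s) := ⟨_, rfl⟩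
  have hK20 : 0 < K2 := by rw [hK2]; positivity
  -- the choice of `ε`
  obtain ⟨ε, hε⟩ : ∃ ε, ε = min (1 / 8) (min (l / 2) (l / (2048 * K2))) := ⟨_, rfl⟩
  have hε0 : 0 < ε := by rw [hε]; positivity
  have hε8 : ε ≤ 1 / 8 := by rw [hε]; exact min_le_left _ _
  have hεl : ε ≤ l / 2 := by rw [hε]; exact (min_le_right _ _).trans (min_le_left _ _)
  have hεK : ε * (2048 * K2) ≤ l := by
    have : ε ≤ l / (2048 * K2) := by
      rw [hε]; exact (min_le_right _ _).trans (min_le_right _ _)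
    rwa [le_div_iff₀ (by positivity)] at this
  obtain ⟨t1, ht1, htay1⟩ := taylor h hm hε0
  rw [← hl] at htay1
  obtain ⟨t0, ht0⟩ : ∃ t0, t0 = min t1 1 := ⟨_, rfl⟩
  have ht00 : 0 < t0 := by rw [ht0]; positivity
  have ht01 : t0 ≤ 1 := by rw [ht0]; exact min_le_right _ _
  have htay : ∀ t, 0 < t → t ≤ t0 → |UU L H (ξ0 - t) - l * t| ≤ ε * t := fun t ht ht' =>
    htay1 t ht (ht'.trans (by rw [ht0]; exact min_le_left _ _))
  obtain ⟨τ, hτ⟩ : ∃ τ, τ = t0 / 2 := ⟨_, rfl⟩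
  have hτ0 : 0 < τ := by rw [hτ]; positivity
  have hτ1 : τ ≤ 1 := by rw [hτ]; linarith
  obtain ⟨C1, hC1⟩ : ∃ C1, C1 = 2 * P * ∫ r in Ioi τ, r ^ (-(1 + 2 * s)) := ⟨_, rfl⟩
  have hC10 : 0 ≤ C1 := by
    rw [hC1]
    have : 0 ≤ ∫ r in Ioi τ, r ^ (-(1 + 2 * s)) :=
      setIntegral_nonneg measurableSet_Ioi fun r hr => Real.rpow_nonneg (hτ0.trans hr).le _
    positivity
  obtain ⟨K, hK⟩ : ∃ K, K = 8 * (C0 + C1) / l := ⟨_, rfl⟩
  have hK0 : 0 ≤ K := by rw [hK]; positivity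
  -- the choice of `d`
  obtain ⟨d, hd⟩ : ∃ d, d = min (t0 / (16 * (l + 1))) (min (δ / 4) (τ / (8 * Real.exp K))) :=
    ⟨_, rfl⟩
  have hd0 : 0 < d := by rw [hd]; positivity
  have hda : d * (16 * (l + 1)) ≤ t0 := by
    have : d ≤ t0 / (16 * (l + 1)) := by rw [hd]; exact min_le_left _ _
    rwa [le_div_iff₀ (by positivity)] at this
  have hdb : d ≤ δ / 4 := by rw [hd]; exact (min_le_right _ _).trans (min_le_left _ _)
  have hdc : d * (8 * Real.exp K) ≤ τ := by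
    have : d ≤ τ / (8 * Real.exp K) := by
      rw [hd]; exact (min_le_right _ _).trans (min_le_right _ _)
    rwa [le_div_iff₀ (by positivity)] at this
  have hexp : 1 ≤ Real.exp K := Real.one_le_exp hK0
  have hd16 : 16 * d ≤ t0 := by nlinarith
  have h8 : 8 * d ≤ τ := by nlinarith
  have hd1 : d ≤ 1 := by linarith
  obtain ⟨t, p, htp, ht2, hc⟩ := contact_d h hl0 hε0 hε8 hd0 (by nlinarith) htay
  have hξ : ξ0 - t < ξ0 := by linarith
  have hv := visc h h0 h1 hξ (by positivity : 0 ≤ 1 / d) hc (by positivity : 0 < κ * d)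
  have htail := tail_bound h h0 hl0 hε0 hεl hd0 hκ0 (by linarith) htp ht2 hτ0
    (by rw [hτ]; linarith) htay
  obtain ⟨Λ, hΛ⟩ : ∃ Λ, Λ = Lam s τ d := ⟨_, rfl⟩
  have hΛ1 : d ^ (1 - 2 * s) ≤ 16 * Λ := by rw [hΛ]; exact Lam_ge h0 h1 hd0 h8
  have hΛ0 : 0 ≤ Λ := by
    have : 0 < d ^ (1 - 2 * s) := Real.rpow_pos_of_pos hd0 _
    linarith
  have hΛK : K < Λ := by
    have h2 := Lam_log hs hd0 (by linarith : 4 * d ≤ τ) hτ1
    rw [← hΛ] at h2
    have h3 : 2 * Real.exp K ≤ τ / (4 * d) := by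
      rw [le_div_iff₀ (by positivity)]; linarith
    have h4 : K < Real.log (τ / (4 * d)) := by
      rw [Real.lt_log_iff_exp_lt (by positivity)]
      linarith [Real.exp_pos K]
    linarith
  have hT1 := T1_bound (s := s) h1 hκ0 hd0 hd1 hκl hΛ1 hΛ0
  have hT2 : 8 * ε * d * (∫ r in Ioi (κ * d), r ^ (-(1 + 2 * s))) ≤ l / 16 * Λ := by
    rw [integral_Ioi_rpow_of_lt (by linarith) (by positivity)]
    have e1 : (κ * d) ^ (-(1 + 2 * s) + 1) = κ ^ (-(2 * s)) * d ^ (-(2 * s)) := by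
      rw [← Real.mul_rpow hκ0.le hd0.le]; congr 1; ring
    have e2 : d * d ^ (-(2 * s)) = d ^ (1 - 2 * s) := by
      nth_rewrite 1 [← Real.rpow_one d]
      rw [← Real.rpow_add hd0]; congr 1
    rw [e1]
    have e3 : 8 * ε * d * (-(κ ^ (-(2 * s)) * d ^ (-(2 * s))) / (-(1 + 2 * s) + 1)) =
        8 * ε * K2 * d ^ (1 - 2 * s) := by
      rw [hK2, ← e2]
      have : -(1 + 2 * s) + 1 = -(2 * s) := by ring
      rw [this, neg_div_neg_eq]
      ring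
    rw [e3]
    calc 8 * ε * K2 * d ^ (1 - 2 * s) ≤ 8 * ε * K2 * (16 * Λ) := by gcongr
      _ = (ε * (2048 * K2)) / 16 * Λ := by ring
      _ ≤ l / 16 * Λ := by gcongr
  have hlow := hffδ (ξ0 - t) (by linarith) hξ
  rw [← hΛ, ← hC1] at htail
  have hfin : -C0 ≤ l / 16 * Λ + (l / 16 * Λ - l / 4 * Λ + C1) := by linarith
  have hKl : K * l = 8 * (C0 + C1) := by rw [hK]; field_simp
  nlinarith

/-- The profile is not `C^1` up to the free boundary. -/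
theorem not_C1 (h : Profile s L P ξ0 H) (hs : 1 / 2 ≤ s) (h1 : s < 1) :
    ¬ ∃ m : ℝ, Tendsto (deriv H) (𝓝[<] ξ0) (𝓝 m) := by
  rintro ⟨m, hm⟩
  have hm0 : m ≤ 0 := by
    apply le_of_tendsto hm
    refine Eventually.of_forall fun x => ?_
    exact h.anti.deriv_nonpos
  rcases hm0.lt_or_eq with h2 | h2
  · exact case_slope h hs h1 hm h2
  · rw [h2] at hm
    exact case_zero h (by linarith) h1 hm

end Pool.Agent.R217.FS
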