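import Mathlib

set_option autoImplicit false

open MeasureTheory Filter Topology Set
open scoped ContDiff

namespace Pool.Agent.R217.FS

/-- The fractional Laplacian `p.v. ∫ (φ(x) - φ(y)) / |x - y|^(1+2s) dy` of a smooth function,
written with the symmetric second difference. -/
noncomputable def fl (s : ℝ) (φ : ℝ → ℝ) (x : ℝ) : ℝ :=
  ∫ h in Ioi (0:ℝ), (2 * φ x - φ (x + h) - φ (x - h)) / h ^ (1 + 2 * s)

/-- The second difference. -/
def sd (φ : ℝ → ℝ) (h z : ℝ) : ℝ := 2 * φ z - φ (z + h) - φ (z - h)

lemma sd_bound {φ : ℝ → ℝ} (hφ : ContDiff ℝ ∞ φ) (hc : HasCompactSupport φ) :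
    ∃ K : ℝ, 0 ≤ K ∧ ∀ h z, |sd φ h z| ≤ K * h ^ 2 := by
  have h1 : ContDiff ℝ ∞ (deriv φ) := by
    rw [contDiff_infty_iff_deriv] at hφ
    exact hφ.2
  have hc1 : HasCompactSupport (deriv φ) := hc.deriv
  have h2 : Continuous (deriv (deriv φ)) := h1.continuous_deriv (by simp)
  obtain ⟨K, hK⟩ := hc1.deriv.exists_bound_of_continuous h2
  have hK0 : 0 ≤ K := (norm_nonneg _).trans (hK 0)
  refine ⟨2 * K, by positivity, fun h z => ?_⟩
  -- Lipschitz bound for `φ'`
  have hlip : ∀ x y, |deriv φ x - deriv φ y| ≤ K * |x - y| := by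
    intro x y
    have := Convex.norm_image_sub_le_of_norm_deriv_le (f := deriv φ) (s := univ)
      (fun w _ => (h1.differentiable (by simp)) w) (fun w _ => hK w) convex_univ
      (mem_univ y) (mem_univ x)
    simpa using this
  have hφd : Differentiable ℝ φ := hφ.differentiable (by simp)
  let G : ℝ → ℝ := fun t => φ (z + t) + φ (z - t) - 2 * φ z
  have hG : ∀ t, HasDerivAt G (deriv φ (z + t) - deriv φ (z - t)) t := by
    intro t
    have e1 : HasDerivAt (fun t => φ (z + t)) (deriv φ (z + t)) t :=
      ((hφd (z + t)).hasDerivAt).comp_const_add z t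
    have e2 : HasDerivAt (fun t => φ (z - t)) (-deriv φ (z - t)) t :=
      ((hφd (z - t)).hasDerivAt).comp_const_sub z t
    exact ((e1.add e2).sub_const (2 * φ z)).congr_deriv (by ring)
  have hbd : ∀ t ∈ Set.uIcc 0 h, ‖deriv φ (z + t) - deriv φ (z - t)‖ ≤ 2 * K * |h| := by
    intro t ht
    have h3 := hlip (z + t) (z - t)
    have h4 : |t| ≤ |h| := by
      have := Set.abs_sub_left_of_mem_uIcc ht
      simpa using this
    rw [Real.norm_eq_abs]
    refine h3.trans ?_
    have h5 : |z + t - (z - t)| = 2 * |t| := by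
      rw [show z + t - (z - t) = 2 * t by ring, abs_mul, abs_two]
    rw [h5]
    nlinarith
  have h6 := Convex.norm_image_sub_le_of_norm_hasDerivWithin_le (f := G)
    (fun t _ => (hG t).hasDerivWithinAt) hbd (convex_uIcc 0 h) left_mem_uIcc right_mem_uIcc
  have h7 : G 0 = 0 := by simp only [G]; ring_nf
  have h8 : |sd φ h z| = ‖G h - G 0‖ := by
    rw [h7, sub_zero, Real.norm_eq_abs, ← abs_neg]
    congr 1
    simp only [sd, G]; ring
  rw [h8]
  refine h6.trans (le_of_eq ?_)
  rw [sub_zero, Real.norm_eq_abs]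
  rw [mul_assoc, abs_mul_abs_self]; ring

/-- The weight function. -/
noncomputable def wt (s : ℝ) (h : ℝ) : ℝ := if h ≤ 1 then h ^ (1 - 2 * s) else h ^ (-(1 + 2 * s))

lemma wt_integrable {s : ℝ} (h0 : 0 < s) (h1 : s < 1) : IntegrableOn (wt s) (Ioi 0) := by
  rw [← Ioc_union_Ioi_eq_Ioi zero_le_one]
  apply IntegrableOn.union
  · have e : IntegrableOn (fun h : ℝ => h ^ (1 - 2 * s)) (Ioc 0 1) := by
      rw [← intervalIntegrable_iff_integrableOn_Ioc_of_le zero_le_one]
      exact intervalIntegral.intervalIntegrable_rpow' (by linarith)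
    refine e.congr_fun ?_ measurableSet_Ioc
    intro h hh
    simp only [wt, if_pos hh.2]
  · have e : IntegrableOn (fun h : ℝ => h ^ (-(1 + 2 * s))) (Ioi 1) :=
      integrableOn_Ioi_rpow_of_lt (by linarith) one_pos
    refine e.congr_fun ?_ measurableSet_Ioi
    intro h hh
    simp only [wt, if_neg (not_le.2 (mem_Ioi.1 hh))]

lemma sd_l1 {φ : ℝ → ℝ} (hφ : ContDiff ℝ ∞ φ) (hc : HasCompactSupport φ) (s : ℝ) :
    ∃ C : ℝ, 0 ≤ C ∧ ∀ h, 0 < h → Integrable (sd φ h) ∧
      (∫ z, |sd φ h z|) / h ^ (1 + 2 * s) ≤ C * wt s h := by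
  obtain ⟨K, hK0, hK⟩ := sd_bound hφ hc
  obtain ⟨R, hR⟩ := hc.isCompact.isBounded.subset_closedBall (0:ℝ)
  have hφi : Integrable φ := hφ.continuous.integrable_of_hasCompactSupport hc
  set I := ∫ z, |φ z| with hI
  have hI0 : 0 ≤ I := integral_nonneg fun z => abs_nonneg _
  set V : ℝ := 2 * (|R| + 1) with hV
  have hint : ∀ h, Integrable (sd φ h) := fun h =>
    ((hφi.const_mul 2).sub (hφi.comp_add_right h)).sub (hφi.comp_sub_right h)
  refine ⟨K * V + 4 * I, by positivity, fun h hh => ⟨hint h, ?_⟩⟩
  have hpow : 0 < h ^ (1 + 2 * s) := Real.rpow_pos_of_pos hh _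
  rcases le_or_gt h 1 with h1 | h1
  · -- small `h`
    rw [wt, if_pos h1]
    have hz : ∀ z, z ∉ Icc (-(|R| + 1)) (|R| + 1) → sd φ h z = 0 := by
      intro z hz
      have hz' : |R| + 1 < |z| := by
        by_contra hcon
        push Not at hcon
        exact hz (abs_le.1 hcon)
      have hv : ∀ w, |R| < |w| → φ w = 0 := by
        intro w hw
        by_contra hne
        have : w ∈ Metric.closedBall (0:ℝ) R := hR (subset_tsupport φ hne)
        rw [mem_closedBall_zero_iff, Real.norm_eq_abs] at this
        linarith [le_abs_self R]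
      have a1 : |R| < |z + h| := by
        have := abs_sub_abs_le_abs_sub z (-h)
        rw [sub_neg_eq_add, abs_neg, abs_of_pos hh] at this
        linarith
      have a2 : |R| < |z - h| := by
        have := abs_sub_abs_le_abs_sub z h
        rw [abs_of_pos hh] at this
        linarith
      simp only [sd, hv z (by linarith), hv _ a1, hv _ a2]; norm_num
    have e1 : ∫ z, |sd φ h z| = ∫ z in Icc (-(|R| + 1)) (|R| + 1), |sd φ h z| := by
      symm
      apply setIntegral_eq_integral_of_forall_compl_eq_zero
      intro z hz'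
      rw [hz z hz', abs_zero]
    have e2 : ∫ z in Icc (-(|R| + 1)) (|R| + 1), |sd φ h z| ≤
        ∫ z in Icc (-(|R| + 1)) (|R| + 1), K * h ^ 2 := by
      apply setIntegral_mono_on (hint h).abs.integrableOn
      · exact integrableOn_const (by simp)
      · exact measurableSet_Icc
      · intro z _; exact hK h z
    rw [setIntegral_const, smul_eq_mul] at e2
    have e3 : (volume : Measure ℝ).real (Icc (-(|R| + 1)) (|R| + 1)) = V := by
      rw [Measure.real, Real.volume_Icc, ENNReal.toReal_ofReal (by have := abs_nonneg R; linarith), hV]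
      ring
    rw [e3] at e2
    rw [e1, div_le_iff₀ hpow, mul_assoc, ← Real.rpow_add hh]
    have e4 : (1 - 2 * s + (1 + 2 * s)) = ((2:ℕ):ℝ) := by push_cast; ring
    rw [e4, Real.rpow_natCast]
    have : 0 ≤ 4 * I * h ^ 2 := by positivity
    nlinarith
  · -- large `h`
    rw [wt, if_neg (not_le.2 h1)]
    have e1 : ∫ z, |sd φ h z| ≤ 4 * I := by
      have i1 := (hφi.abs).const_mul 2
      have i2 := (hφi.comp_add_right h).abs
      have i3 := (hφi.comp_sub_right h).abs
      have i12 : Integrable (fun z => 2 * |φ z| + |φ (z + h)|) := i1.add i2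
      calc ∫ z, |sd φ h z| ≤ ∫ z, (2 * |φ z| + |φ (z + h)| + |φ (z - h)|) := by
            apply integral_mono (hint h).abs (i12.add i3)
            intro z
            simp only [sd]
            have a1 := abs_sub (2 * φ z - φ (z + h)) (φ (z - h))
            have a2 := abs_sub (2 * φ z) (φ (z + h))
            rw [abs_mul, abs_two] at a2
            change _ ≤ 2 * |φ z| + |φ (z + h)| + |φ (z - h)|
            linarith
        _ = 2 * I + I + I := by
            rw [integral_add i12 i3, integral_add i1 i2, integral_const_mul,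
              integral_add_right_eq_self (fun z => |φ z|) h,
              integral_sub_right_eq_self (fun z => |φ z|) h]
        _ = 4 * I := by ring
    rw [div_le_iff₀ hpow, mul_assoc, ← Real.rpow_add hh]
    have e4 : (-(1 + 2 * s) + (1 + 2 * s)) = 0 := by ring
    rw [e4, Real.rpow_zero]
    have : 0 ≤ K * V := by positivity
    linarith

/-- Fubini. -/
lemma fubini {φ : ℝ → ℝ} (hφ : ContDiff ℝ ∞ φ) (hc : HasCompactSupport φ) {s : ℝ} (h0 : 0 < s)
    (h1 : s < 1) {U : ℝ → ℝ} (hU : Measurable U) {M : ℝ} (hM : ∀ x, |U x| ≤ M) :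
    ∫ z, U z * fl s φ z = ∫ h in Ioi (0:ℝ), (∫ z, U z * sd φ h z) / h ^ (1 + 2 * s) ∧
      IntegrableOn (fun h => (∫ z, U z * sd φ h z) / h ^ (1 + 2 * s)) (Ioi 0) := by
  obtain ⟨C, hC0, hC⟩ := sd_l1 hφ hc s
  have hM0 : 0 ≤ M := (abs_nonneg _).trans (hM 0)
  let F : ℝ × ℝ → ℝ := fun q => U q.1 * (sd φ q.2 q.1 / q.2 ^ (1 + 2 * s))
  have hFm : Measurable F := by
    have hφm : Measurable φ := hφ.continuous.measurable
    simp only [F, sd]
    fun_prop
  have hFi : Integrable F ((volume : Measure ℝ).prod (volume.restrict (Ioi (0:ℝ)))) := by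
    rw [integrable_prod_iff' hFm.aestronglyMeasurable]
    constructor
    · filter_upwards [ae_restrict_mem measurableSet_Ioi] with h hh
      have hi := (hC h hh).1
      have : Integrable (fun z => U z * sd φ h z) := by
        apply (hi.abs.const_mul M).mono'
        · exact (hU.aestronglyMeasurable).mul hi.1
        · refine Eventually.of_forall fun z => ?_
          rw [norm_mul, Real.norm_eq_abs, Real.norm_eq_abs]
          exact mul_le_mul_of_nonneg_right (hM z) (abs_nonneg _)
      have h2 := this.div_const (h ^ (1 + 2 * s))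
      refine h2.congr (Eventually.of_forall fun z => ?_)
      simp only [F]; ring
    · apply ((wt_integrable h0 h1).const_mul (M * C)).mono'
      · exact hFm.aestronglyMeasurable.norm.prod_swap.integral_prod_right'
      · filter_upwards [ae_restrict_mem measurableSet_Ioi] with h hh
        have hi := (hC h hh).1
        have hb := (hC h hh).2
        have hpow : 0 < h ^ (1 + 2 * s) := Real.rpow_pos_of_pos hh _
        rw [Real.norm_of_nonneg (integral_nonneg fun z => norm_nonneg _)]
        calc ∫ z, ‖F (z, h)‖ ≤ ∫ z, M * (|sd φ h z| / h ^ (1 + 2 * s)) := by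
              apply integral_mono_of_nonneg
              · exact Eventually.of_forall fun z => norm_nonneg _
              · exact (hi.abs.div_const _).const_mul M
              · refine Eventually.of_forall fun z => ?_
                simp only [F]
                rw [norm_mul, Real.norm_eq_abs, Real.norm_eq_abs, abs_div, abs_of_pos hpow]
                exact mul_le_mul_of_nonneg_right (hM z) (by positivity)
          _ = M * ((∫ z, |sd φ h z|) / h ^ (1 + 2 * s)) := by
              rw [integral_const_mul, integral_div]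
          _ ≤ M * (C * wt s h) := mul_le_mul_of_nonneg_left hb hM0
          _ = M * C * wt s h := by ring
  have e1 : ∀ z, U z * fl s φ z = ∫ h in Ioi (0:ℝ), F (z, h) := by
    intro z
    simp only [fl, F, sd]
    rw [integral_const_mul]
  have e2 : ∀ h, ∫ z, F (z, h) = (∫ z, U z * sd φ h z) / h ^ (1 + 2 * s) := by
    intro h
    simp only [F]
    rw [← integral_div]
    congr 1
    funext z; ring
  constructor
  · simp_rw [e1]
    rw [integral_integral_swap (f := fun z h => F (z, h)) hFi]
    simp_rw [e2]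
  · have := hFi.integral_prod_right
    simp_rw [e2] at this
    exact this

end Pool.Agent.R217.FS
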