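import Pool.Agent.R217.FS.Fub

set_option autoImplicit false

open MeasureTheory Filter Topology Set
open scoped ContDiff Convolution

namespace Pool.Agent.R217.FS

/-- The self-similar profile `H` of the one-phase fractional Stefan problem with latent heat `L`
and free boundary point `ξ0`. -/
structure Profile (s L P ξ0 : ℝ) (H : ℝ → ℝ) : Prop where
  cont : Continuous H
  anti : Antitone H
  nonneg : ∀ x, 0 ≤ H x
  le : ∀ x, H x ≤ L + P
  pos : 0 < ξ0
  val : H ξ0 = L
  uniq : ∀ x, H x = L → x = ξ0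
  smooth : ContDiffOn ℝ 1 H (Iio ξ0)
  eqn : ∀ φ : ℝ → ℝ, ContDiff ℝ ∞ φ → HasCompactSupport φ →
    1 / (2 * s) * (∫ x, H x * deriv (fun y => y * φ y) x) +
      ∫ x, max (H x - L) 0 * fl s φ x = 0

/-- The mollifiers. -/
noncomputable def bp (n : ℕ) : ContDiffBump (0 : ℝ) :=
  ⟨1 / (2 * ((n:ℝ) + 1)), 1 / ((n:ℝ) + 1), by positivity, by
    have : (0:ℝ) < (n:ℝ) + 1 := by positivity
    rw [div_lt_div_iff₀ (by positivity) this]
    linarith⟩

/-- The normed mollifiers. -/
noncomputable def rr (n : ℕ) : ℝ → ℝ := (bp n).normed volume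

lemma rr_smooth (n : ℕ) : ContDiff ℝ ∞ (rr n) := (bp n).contDiff_normed
lemma rr_nonneg (n : ℕ) (x : ℝ) : 0 ≤ rr n x := (bp n).nonneg_normed x
lemma rr_int (n : ℕ) : ∫ x, rr n x = 1 := (bp n).integral_normed
lemma rr_cs (n : ℕ) : HasCompactSupport (rr n) := (bp n).hasCompactSupport_normed
lemma rr_neg (n : ℕ) (x : ℝ) : rr n (-x) = rr n x := (bp n).normed_neg x
lemma rr_integrable (n : ℕ) : Integrable (rr n) :=
  (rr_smooth n).continuous.integrable_of_hasCompactSupport (rr_cs n)

lemma rr_zero (n : ℕ) {x : ℝ} (hx : 1 / ((n:ℝ) + 1) ≤ |x|) : rr n x = 0 := by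
  by_contra hne
  have h1 : x ∈ Function.support (rr n) := hne
  have h2 : Function.support (rr n) = Metric.ball 0 (1 / ((n:ℝ) + 1)) :=
    (bp n).support_normed_eq
  rw [h2, mem_ball_zero_iff, Real.norm_eq_abs] at h1
  linarith

/-- Mollification. -/
noncomputable def mo (n : ℕ) (g : ℝ → ℝ) (x : ℝ) : ℝ := ∫ t, rr n t * g (x - t)

lemma mo_eq (n : ℕ) (g : ℝ → ℝ) (x : ℝ) : ∫ z, g z * rr n (x - z) = mo n g x := by
  rw [mo, ← integral_sub_left_eq_self (fun t => rr n t * g (x - t)) volume x]
  congr 1; funext z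
  rw [sub_sub_cancel, mul_comm]

lemma mo_tendsto {g : ℝ → ℝ} {x : ℕ → ℝ} {x₀ : ℝ} (hm : AEStronglyMeasurable g volume)
    (hg : ContinuousAt g x₀) {k : ℕ → ℕ} (hk : Tendsto k atTop atTop)
    (hx : Tendsto x atTop (𝓝 x₀)) :
    Tendsto (fun n => mo (k n) g (x n)) atTop (𝓝 (g x₀)) := by
  have h1 : Tendsto (fun n => (bp (k n)).rOut) atTop (𝓝 0) := by
    have : Tendsto (fun n : ℕ => 1 / ((n:ℝ) + 1)) atTop (𝓝 0) :=
      tendsto_one_div_add_atTop_nhds_zero_nat
    exact this.comp hk
  have h2 : Tendsto (Function.uncurry (fun (_ : ℕ) x => g x)) (atTop ×ˢ 𝓝 x₀) (𝓝 (g x₀)) :=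
    hg.tendsto.comp tendsto_snd
  exact ContDiffBump.convolution_tendsto_right (μ := (volume : Measure ℝ)) h1
    (Eventually.of_forall fun _ => hm) h2 hx

lemma mo_integrand {n : ℕ} {g : ℝ → ℝ} (hg : Measurable g) {M : ℝ} (hM : ∀ x, |g x| ≤ M)
    (x : ℝ) : Integrable fun t => rr n t * g (x - t) := by
  apply ((rr_integrable n).mul_const M).mono'
  · exact ((rr_smooth n).continuous.measurable.mul (hg.comp (by fun_prop))).aestronglyMeasurable
  · refine Eventually.of_forall fun t => ?_
    rw [norm_mul, Real.norm_of_nonneg (rr_nonneg n t), Real.norm_eq_abs]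
    exact mul_le_mul_of_nonneg_left (hM _) (rr_nonneg n t)

lemma mo_bound {n : ℕ} {g : ℝ → ℝ} {M : ℝ} (hM : ∀ x, |g x| ≤ M) (x : ℝ) :
    |mo n g x| ≤ M := by
  have h1 : ‖mo n g x‖ ≤ ∫ t, rr n t * M := by
    apply norm_integral_le_of_norm_le ((rr_integrable n).mul_const M)
    refine Eventually.of_forall fun t => ?_
    rw [norm_mul, Real.norm_of_nonneg (rr_nonneg n t), Real.norm_eq_abs]
    exact mul_le_mul_of_nonneg_left (hM _) (rr_nonneg n t)
  rw [integral_mul_const, rr_int, one_mul, Real.norm_eq_abs] at h1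
  exact h1

lemma mo_continuous {n : ℕ} {g : ℝ → ℝ} (hg : Continuous g) {M : ℝ} (hM : ∀ x, |g x| ≤ M) :
    Continuous (mo n g) := by
  unfold mo
  apply continuous_of_dominated (bound := fun t => rr n t * M)
  · intro x; exact (mo_integrand hg.measurable hM x).1
  · intro x
    refine Eventually.of_forall fun t => ?_
    rw [norm_mul, Real.norm_of_nonneg (rr_nonneg n t), Real.norm_eq_abs]
    exact mul_le_mul_of_nonneg_left (hM _) (rr_nonneg n t)
  · exact (rr_integrable n).mul_const M
  · refine Eventually.of_forall fun t => ?_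
    fun_prop

variable {s L P ξ0 : ℝ} {H : ℝ → ℝ}

/-- The temperature. -/
noncomputable def UU (L : ℝ) (H : ℝ → ℝ) (x : ℝ) : ℝ := max (H x - L) 0

lemma UU_cont (h : Profile s L P ξ0 H) : Continuous (UU L H) :=
  (h.cont.sub continuous_const).max continuous_const

lemma P_nonneg (h : Profile s L P ξ0 H) : 0 ≤ P := by
  have := h.le ξ0
  rw [h.val] at this
  linarith

lemma UU_bound (h : Profile s L P ξ0 H) (x : ℝ) : |UU L H x| ≤ P := by
  have hP := P_nonneg h
  rw [UU, abs_of_nonneg (le_max_right _ _)]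
  apply max_le _ hP
  linarith [h.le x]

lemma UU_nonneg (x : ℝ) : 0 ≤ UU L H x := le_max_right _ _

lemma UU_anti (h : Profile s L P ξ0 H) : Antitone (UU L H) := by
  intro x y hxy
  exact max_le_max (by linarith [h.anti hxy]) le_rfl

lemma UU_right (h : Profile s L P ξ0 H) {x : ℝ} (hx : ξ0 ≤ x) : UU L H x = 0 := by
  have := h.anti hx
  rw [h.val] at this
  rw [UU, max_eq_right (by linarith)]

lemma UU_left (h : Profile s L P ξ0 H) {x : ℝ} (hx : x < ξ0) : UU L H x = H x - L ∧ L < H x := by
  have h1 := h.anti hx.le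
  rw [h.val] at h1
  have h2 : H x ≠ L := fun h2 => hx.ne (h.uniq x h2)
  have h3 : L < H x := lt_of_le_of_ne h1 (Ne.symm h2)
  exact ⟨by rw [UU, max_eq_left (by linarith)], h3⟩

/-- The right-hand side `ξ H'(ξ) / (2s)`. -/
noncomputable def ff (s : ℝ) (H : ℝ → ℝ) (z : ℝ) : ℝ := 1 / (2 * s) * (z * deriv H z)

/-- The equation for the mollified profile. -/
lemma main_eq (h : Profile s L P ξ0 H) (h0 : 0 < s) (h1 : s < 1) {n : ℕ} {x : ℝ}
    (hx : x + 1 / ((n:ℝ) + 1) < ξ0) :
    mo n (ff s H) x = ∫ t in Ioi (0:ℝ),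
      (2 * mo n (UU L H) x - mo n (UU L H) (x + t) - mo n (UU L H) (x - t)) /
        t ^ (1 + 2 * s) ∧
    IntegrableOn (fun t =>
      (2 * mo n (UU L H) x - mo n (UU L H) (x + t) - mo n (UU L H) (x - t)) /
        t ^ (1 + 2 * s)) (Ioi 0) := by
  set φ : ℝ → ℝ := fun z => rr n (x - z) with hφdef
  have hφ : ContDiff ℝ ∞ φ := (rr_smooth n).comp (contDiff_const.sub contDiff_id)
  have hφc : HasCompactSupport φ :=
    (rr_cs n).comp_homeomorph ((Homeomorph.subLeft x))
  have hsupp : ∀ z, φ z ≠ 0 → z ≤ x + 1 / ((n:ℝ) + 1) := by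
    intro z hz
    by_contra hcon
    push Not at hcon
    apply hz
    apply rr_zero
    rw [abs_of_neg (by
      have : 0 < 1 / ((n:ℝ) + 1) := by positivity
      linarith)]
    linarith
  have htsupp : ∀ g : ℝ → ℝ, Function.support g ⊆ Function.support φ →
      ∀ z ∈ tsupport g, z < ξ0 := by
    intro g hg z hz
    have h2 : tsupport g ⊆ Iic (x + 1 / ((n:ℝ) + 1)) := by
      apply closure_minimal _ isClosed_Iic
      intro w hw
      exact hsupp w (hg hw)
    exact lt_of_le_of_lt (h2 hz) hx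
  have heq := h.eqn φ hφ hφc
  -- the first term
  set ψ : ℝ → ℝ := fun y => y * φ y with hψdef
  have hψ : ContDiff ℝ ∞ ψ := contDiff_id.mul hφ
  have hψc : HasCompactSupport ψ := hφc.mul_left
  have hψs : Function.support ψ ⊆ Function.support φ := by
    intro z hz
    rw [Function.mem_support] at hz ⊢
    intro h2; apply hz; simp only [hψdef, h2, mul_zero]
  have hHd : ∀ z < ξ0, HasDerivAt H (deriv H z) z := by
    intro z hz
    exact ((h.smooth.differentiableOn (by simp)).differentiableAt (Iio_mem_nhds hz)).hasDerivAt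
  have hdc : ContinuousOn (deriv H) (Iio ξ0) :=
    h.smooth.continuousOn_deriv_of_isOpen isOpen_Iio le_rfl
  have hdm : Measurable (deriv H) := measurable_deriv H
  have hψd : Continuous (deriv ψ) := hψ.continuous_deriv (by simp)
  have hdi : Integrable (deriv H * ψ) := by
    -- continuous with compact support
    have hcont : Continuous (deriv H * ψ) := by
      rw [continuous_iff_continuousAt]
      intro z
      rcases lt_or_ge z ξ0 with hz | hz
      · exact (hdc.continuousAt (Iio_mem_nhds hz)).mul hψ.continuous.continuousAt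
      · have h3 : (deriv H * ψ) =ᶠ[𝓝 z] fun _ => (0:ℝ) := by
          have h4 : z ∉ tsupport ψ := fun h5 => absurd (htsupp ψ hψs z h5) (not_lt.2 hz)
          have h5 : ∀ᶠ w in 𝓝 z, w ∉ tsupport ψ := (isClosed_tsupport ψ).isOpen_compl.mem_nhds h4
          filter_upwards [h5] with w hw
          simp only [Pi.mul_apply, image_eq_zero_of_notMem_tsupport hw, mul_zero]
        exact (continuousAt_const.congr h3.symm)
    exact hcont.integrable_of_hasCompactSupport hψc.mul_left
  have hibp : ∫ z, H z * deriv ψ z = - ∫ z, deriv H z * ψ z := by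
    apply integral_mul_deriv_eq_deriv_mul_of_integrable
    · intro z hz
      exact hHd z (htsupp ψ hψs z hz)
    · intro z _
      exact ((hψ.differentiable (by simp)) z).hasDerivAt
    · exact (h.cont.mul hψd).integrable_of_hasCompactSupport hψc.deriv.mul_left
    · exact hdi
    · exact (h.cont.mul hψ.continuous).integrable_of_hasCompactSupport hψc.mul_left
  rw [hibp] at heq
  have e1 : mo n (ff s H) x = 1 / (2 * s) * ∫ z, deriv H z * ψ z := by
    rw [← mo_eq, ← integral_const_mul]
    congr 1; funext z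
    simp only [ff, hψdef, hφdef]; ring
  -- the second term
  have hUm : Measurable (UU L H) := (UU_cont h).measurable
  obtain ⟨hfub, hfubi⟩ := fubini hφ hφc h0 h1 hUm (UU_bound h)
  have e2 : ∀ t, ∫ z, UU L H z * sd φ t z =
      2 * mo n (UU L H) x - mo n (UU L H) (x + t) - mo n (UU L H) (x - t) := by
    intro t
    have hi : ∀ w, Integrable fun z => UU L H z * rr n (w - z) := by
      intro w
      have := (mo_integrand (n := n) hUm (UU_bound h) w).comp_sub_left w
      refine this.congr (Eventually.of_forall fun z => ?_)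
      simp only [sub_sub_cancel]; ring
    have e3 : ∀ z, UU L H z * sd φ t z = 2 * (UU L H z * rr n (x - z)) -
        UU L H z * rr n (x - t - z) - UU L H z * rr n (x + t - z) := by
      intro z
      simp only [sd, hφdef]
      rw [show x - (z + t) = x - t - z by ring, show x - (z - t) = x + t - z by ring]
      ring
    simp_rw [e3]
    have i1 : Integrable (fun z => 2 * (UU L H z * rr n (x - z)) -
        UU L H z * rr n (x - t - z)) := ((hi x).const_mul 2).sub (hi (x - t))
    rw [integral_sub i1 (hi (x + t)), integral_sub ((hi x).const_mul 2) (hi (x - t)),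
      integral_const_mul, mo_eq, mo_eq, mo_eq]
    ring
  simp_rw [e2] at hfub hfubi
  refine ⟨?_, hfubi⟩
  rw [← hfub, e1]
  have : ∫ z, UU L H z * fl s φ z = ∫ x, max (H x - L) 0 * fl s φ x := rfl
  rw [this]
  linarith

end Pool.Agent.R217.FS
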