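import Pool.Agent.R217.FS.Zero

set_option autoImplicit false

open MeasureTheory Filter Topology Set
open scoped ContDiff Convolution

namespace Pool.Agent.R217.FS

variable {s L P ξ0 : ℝ} {H : ℝ → ℝ}

/-- `∫_{4d}^τ t^(-2s) dt`. -/
noncomputable def Lam (s τ d : ℝ) : ℝ := ∫ t in Ioc (4 * d) τ, t ^ (-(2 * s))

lemma Lam_integrable {τ d : ℝ} (hd : 0 < d) : IntegrableOn (fun t : ℝ => t ^ (-(2 * s)))
    (Ioc (4 * d) τ) := by
  have hc : ContinuousOn (fun t : ℝ => t ^ (-(2 * s))) (Icc (4 * d) τ) := by
    intro t ht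
    apply ContinuousAt.continuousWithinAt
    apply Real.continuousAt_rpow_const
    left
    have : 4 * d ≤ t := ht.1
    have : 0 < t := by linarith
    exact this.ne'
  exact (hc.integrableOn_compact isCompact_Icc).mono_set Ioc_subset_Icc_self

lemma Lam_ge (hs0 : 0 < s) (hs1 : s < 1) {τ d : ℝ} (hd : 0 < d) (hdτ : 8 * d ≤ τ) :
    d ^ (1 - 2 * s) ≤ 16 * Lam s τ d := by
  have h1 : ∫ t in Ioc (4 * d) (8 * d), (8 * d) ^ (-(2 * s)) ≤ Lam s τ d := by
    calc _ ≤ ∫ t in Ioc (4 * d) (8 * d), t ^ (-(2 * s)) := by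
          apply setIntegral_mono_on
          · exact integrableOn_const (by simp)
          · exact Lam_integrable hd
          · exact measurableSet_Ioc
          · intro t ht
            have ht0 : 0 < t := by have := ht.1; linarith
            exact Real.rpow_le_rpow_of_nonpos ht0 ht.2 (by linarith)
      _ ≤ _ := by
          apply setIntegral_mono_set (Lam_integrable hd)
          · filter_upwards [ae_restrict_mem measurableSet_Ioc] with t ht
            have ht0 : 0 < t := by have := ht.1; linarith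
            exact Real.rpow_nonneg ht0.le _
          · exact (Ioc_subset_Ioc_right hdτ).eventuallyLE
  rw [setIntegral_const, smul_eq_mul, Measure.real, Real.volume_Ioc,
    ENNReal.toReal_ofReal (by linarith), Real.mul_rpow (by norm_num) hd.le] at h1
  have h2 : (1/64 : ℝ) ≤ 8 ^ (-(2 * s)) := by
    have : (8:ℝ) ^ (-(2:ℝ)) ≤ 8 ^ (-(2 * s)) :=
      Real.rpow_le_rpow_of_exponent_le (by norm_num) (by linarith)
    refine le_trans (le_of_eq ?_) this
    rw [Real.rpow_neg (by norm_num), Real.rpow_two]; norm_num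
  have h3 : d ^ (1 - 2 * s) = d * d ^ (-(2 * s)) := by
    nth_rewrite 2 [← Real.rpow_one d]
    rw [← Real.rpow_add hd]; congr 1
  have h4 : 0 < d ^ (-(2 * s)) := Real.rpow_pos_of_pos hd _
  rw [h3]
  have h5 : d * (1/64 * d ^ (-(2 * s))) ≤ d * (8 ^ (-(2 * s)) * d ^ (-(2 * s))) := by
    gcongr
  nlinarith

lemma Lam_log (hs : 1 / 2 ≤ s) {τ d : ℝ} (hd : 0 < d) (hdτ : 4 * d ≤ τ) (hτ : τ ≤ 1) :
    Real.log (τ / (4 * d)) ≤ Lam s τ d := by
  have h1 : ∫ t in Ioc (4 * d) τ, t⁻¹ ≤ Lam s τ d := by
    apply setIntegral_mono_on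
    · have hc : ContinuousOn (fun t : ℝ => t⁻¹) (Icc (4 * d) τ) := by
        intro t ht
        apply ContinuousAt.continuousWithinAt
        apply continuousAt_inv₀
        have : 4 * d ≤ t := ht.1
        have : 0 < t := by linarith
        exact this.ne'
      exact (hc.integrableOn_compact isCompact_Icc).mono_set Ioc_subset_Icc_self
    · exact Lam_integrable hd
    · exact measurableSet_Ioc
    · intro t ht
      have ht0 : 0 < t := by have := ht.1; linarith
      rw [← Real.rpow_neg_one]
      apply Real.rpow_le_rpow_of_exponent_ge ht0 (ht.2.trans hτ) (by linarith)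
  rw [← intervalIntegral.integral_of_le hdτ, integral_inv_of_pos (by positivity)
    (by linarith)] at h1
  exact h1

/-- Contact points at distance of order `d`. -/
lemma contact_d (h : Profile s L P ξ0 H) {l ε t0 d : ℝ} (hl : 0 < l) (hε : 0 < ε)
    (hε8 : ε ≤ 1 / 8) (hd : 0 < d) (hd1 : d * (4 * (l + 1)) ≤ t0)
    (htay : ∀ t, 0 < t → t ≤ t0 → |UU L H (ξ0 - t) - l * t| ≤ ε * t) :
    ∃ t p : ℝ, 0 < t ∧ t ≤ 2 * d ∧
      ∀ y, UU L H (ξ0 - t) + p * (y - (ξ0 - t)) - (1 / d) * (y - (ξ0 - t)) ^ 2 ≤ UU L H y := by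
  have hUc := UU_cont h
  have hd0 : d ≤ t0 := by nlinarith
  have h4d : 4 * d ≤ t0 := by nlinarith
  let g : ℝ → ℝ := fun y => UU L H y + l * (y - ξ0) + (1 / d) * (y - ξ0 + d) ^ 2
  have hg : Continuous g := by simp only [g]; fun_prop
  have hgd : g (ξ0 - d) ≤ ε * d := by
    have e1 := (abs_le.1 (htay d hd hd0)).2
    have e2 : g (ξ0 - d) = UU L H (ξ0 - d) - l * d := by simp only [g]; ring
    rw [e2]; exact e1
  have hdinv : 0 < 1 / d := by positivity
  have hout : ∀ y, y ∉ Ioo (ξ0 - 2 * d) ξ0 → ε * d < g y ∨ y = ξ0 - 2 * d := by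
    intro y hy
    rw [mem_Ioo, not_and_or, not_lt, not_lt] at hy
    rcases hy with hy | hy
    · rcases hy.eq_or_lt with hy' | hy'
      · right; exact hy'
      · left
        set t := ξ0 - y with ht
        have ht2 : 2 * d < t := by rw [ht]; linarith
        have e2 : g y = UU L H (ξ0 - t) - l * t + (1 / d) * (t - d) ^ 2 := by
          simp only [g, ht]; ring_nf
        rw [e2]
        rcases le_or_gt t t0 with h3 | h3
        · have e1 := (abs_le.1 (htay t (by linarith) h3)).1
          have e3 : d * (ε * d + ε * t) < (t - d) ^ 2 := by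
            have a3 : (t / 2) ^ 2 ≤ (t - d) ^ 2 := by
              apply pow_le_pow_left₀ (by linarith)
              linarith
            have a4 : ε * d + ε * t ≤ 1 / 8 * (3 / 2 * t) := by
              have : ε * (d + t) ≤ 1 / 8 * (d + t) :=
                mul_le_mul_of_nonneg_right hε8 (by linarith)
              linarith
            have a5 : d * (ε * d + ε * t) ≤ d * (1 / 8 * (3 / 2 * t)) :=
              mul_le_mul_of_nonneg_left a4 hd.le
            have a6 : d * t < t / 2 * t := mul_lt_mul_of_pos_right (by linarith) (by linarith)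
            nlinarith
          have e4 : ε * d + ε * t < (1 / d) * (t - d) ^ 2 := by
            rw [one_div, inv_mul_eq_div, lt_div_iff₀ hd]
            linarith
          linarith
        · have hU : 0 ≤ UU L H (ξ0 - t) := UU_nonneg _
          have e3 : d * (ε * d + l * t) < (t - d) ^ 2 := by
            have a1 : d * (4 * (l + 1)) < t := lt_of_le_of_lt hd1 h3
            have a2 : 2 * d ≤ t := ht2.le
            have a3 : (t / 2) ^ 2 ≤ (t - d) ^ 2 := by
              apply pow_le_pow_left₀ (by linarith)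
              linarith
            have a4 : d * (ε * d + l * t) ≤ d * (l + 1) * t := by
              have b1 : ε * d ≤ t := by
                have : ε * d ≤ 1 / 8 * d := mul_le_mul_of_nonneg_right hε8 hd.le
                linarith
              have b2 : d * (ε * d + l * t) ≤ d * (t + l * t) :=
                mul_le_mul_of_nonneg_left (by linarith) hd.le
              linarith
            have a5 : d * (l + 1) * t < (t / 2) ^ 2 := by nlinarith
            linarith
          have e4 : ε * d + l * t < (1 / d) * (t - d) ^ 2 := by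
            rw [one_div, inv_mul_eq_div, lt_div_iff₀ hd]
            linarith
          linarith
    · left
      have hU : 0 ≤ UU L H y := UU_nonneg _
      have e1 : d ≤ (1 / d) * (y - ξ0 + d) ^ 2 := by
        rw [one_div, inv_mul_eq_div, le_div_iff₀ hd]
        nlinarith
      have e2 : 0 ≤ l * (y - ξ0) := mul_nonneg hl.le (by linarith)
      simp only [g]
      nlinarith
  obtain ⟨ξ, hξK, hξ⟩ := (isCompact_Icc (a := ξ0 - 2 * d) (b := ξ0)).exists_isMinOn
    ⟨ξ0, by constructor <;> linarith⟩ hg.continuousOn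
  have hmin1 : g ξ ≤ g (ξ0 - d) := hξ (by constructor <;> linarith)
  have hmin : ∀ y, g ξ ≤ g y := by
    intro y
    by_cases hy : y ∈ Ioo (ξ0 - 2 * d) ξ0
    · exact hξ ⟨hy.1.le, hy.2.le⟩
    · rcases hout y hy with h3 | h3
      · linarith
      · rw [h3]; exact hξ (by constructor <;> linarith)
  have hξ0 : ξ < ξ0 := by
    by_contra hcon
    push Not at hcon
    have : ξ ∉ Ioo (ξ0 - 2 * d) ξ0 := fun h3 => absurd h3.2 (not_lt.2 hcon)
    rcases hout ξ this with h3 | h3
    · linarith
    · linarith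
  refine ⟨ξ0 - ξ, -l - 2 / d * (ξ - ξ0 + d), by linarith, by linarith [hξK.1], fun y => ?_⟩
  have := hmin y
  simp only [g] at this
  rw [sub_sub_cancel]
  have hdne : d ≠ 0 := hd.ne'
  have e : (1 / d) * (y - ξ0 + d) ^ 2 = (1 / d) * (ξ - ξ0 + d) ^ 2 +
      2 / d * (ξ - ξ0 + d) * (y - ξ) + (1 / d) * (y - ξ) ^ 2 := by
    field_simp; ring
  rw [e] at this
  linarith

/-- The upper bound for the tail integral at a contact point. -/
lemma tail_bound (h : Profile s L P ξ0 H) (h0 : 0 < s) {l ε t0 d τ κ t : ℝ}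
    (hl : 0 < l) (hε : 0 < ε) (hεl : ε ≤ l / 2) (hd : 0 < d) (hκ : 0 < κ)
    (hκ4 : κ ≤ 4) (ht : 0 < t) (ht2 : t ≤ 2 * d) (hτ : 0 < τ) (hτt : τ + 2 * d ≤ t0)
    (htay : ∀ t, 0 < t → t ≤ t0 → |UU L H (ξ0 - t) - l * t| ≤ ε * t) :
    ∫ r in Ioi (κ * d), (2 * UU L H (ξ0 - t) - UU L H (ξ0 - t + r) - UU L H (ξ0 - t - r)) /
        r ^ (1 + 2 * s) ≤
      8 * ε * d * (∫ r in Ioi (κ * d), r ^ (-(1 + 2 * s))) - l / 4 * Lam s τ d +
        2 * P * ∫ r in Ioi τ, r ^ (-(1 + 2 * s)) := by
  have hUc := UU_cont h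
  have hP := P_nonneg h
  have hκd : 0 < κ * d := by positivity
  have i1 : IntegrableOn (fun r : ℝ => r ^ (-(1 + 2 * s))) (Ioi (κ * d)) :=
    integrableOn_Ioi_rpow_of_lt (by linarith) hκd
  have i2 : IntegrableOn (fun r : ℝ => r ^ (-(1 + 2 * s))) (Ioi τ) :=
    integrableOn_Ioi_rpow_of_lt (by linarith) hτ
  have i3 : IntegrableOn (fun r : ℝ => r ^ (-(2 * s))) (Ioc (4 * d) τ) := Lam_integrable hd
  -- integrals of indicators on `Ioi 0`
  set F : ℝ → ℝ := fun r => (2 * UU L H (ξ0 - t) - UU L H (ξ0 - t + r) - UU L H (ξ0 - t - r)) /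
        r ^ (1 + 2 * s) with hF
  have hFi : IntegrableOn F (Ioi (κ * d)) := by
    apply (i1.const_mul (4 * P)).mono'
    · have := hUc.measurable
      have h3 : Measurable F := by simp only [hF]; fun_prop
      exact h3.aestronglyMeasurable
    · filter_upwards [ae_restrict_mem measurableSet_Ioi] with r hr
      have hr0 : 0 < r := hκd.trans hr
      simp only [hF]
      rw [norm_div, Real.norm_eq_abs, Real.norm_of_nonneg (by positivity),
        Real.rpow_neg hr0.le, ← div_eq_mul_inv]
      apply div_le_div_of_nonneg_right _ (by positivity)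
      have b1 := abs_le.1 (UU_bound h (ξ0 - t))
      have b2 := abs_le.1 (UU_bound h (ξ0 - t + r))
      have b3 := abs_le.1 (UU_bound h (ξ0 - t - r))
      rw [abs_le]
      constructor <;> linarith [b1.1, b1.2, b2.1, b2.2, b3.1, b3.2]
  -- the pointwise bound
  have hpt : ∀ r, 0 < r → 2 * UU L H (ξ0 - t) - UU L H (ξ0 - t + r) - UU L H (ξ0 - t - r) ≤
      8 * ε * d - (Ioc (4 * d) τ).indicator (fun r => l / 4 * r) r +
        (Ioi τ).indicator (fun _ => 2 * P) r := by
    intro r hr
    rcases le_or_gt r τ with hrτ | hrτ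
    · rw [indicator_of_notMem (s := Ioi τ) (by rw [mem_Ioi, not_lt]; exact hrτ), add_zero]
      have a1 := (abs_le.1 (htay t ht (by linarith))).2
      have a2 := (abs_le.1 (htay (t + r) (by linarith) (by linarith))).1
      rw [show ξ0 - (t + r) = ξ0 - t - r by ring] at a2
      rcases le_or_gt r t with hrt | hrt
      · -- `r ≤ t`
        have hni : r ∉ Ioc (4 * d) τ := by
          rw [mem_Ioc, not_and_or, not_lt]; left; linarith
        rw [indicator_of_notMem hni, sub_zero]
        rcases hrt.eq_or_lt with h5 | h5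
        · have a3 : 0 ≤ UU L H (ξ0 - t + r) := UU_nonneg _
          rw [h5] at a2 a3 ⊢
          nlinarith
        · have a3 := (abs_le.1 (htay (t - r) (by linarith) (by linarith))).1
          rw [show ξ0 - (t - r) = ξ0 - t + r by ring] at a3
          nlinarith
      · have a3 : 0 ≤ UU L H (ξ0 - t + r) := UU_nonneg _
        by_cases hmem : r ∈ Ioc (4 * d) τ
        · rw [indicator_of_mem hmem]
          have := hmem.1
          nlinarith
        · rw [indicator_of_notMem hmem, sub_zero]
          nlinarith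
    · rw [indicator_of_mem (s := Ioi τ) hrτ, indicator_of_notMem (s := Ioc (4 * d) τ) (by
        rw [mem_Ioc, not_and_or, not_le]; right; exact hrτ)]
      have b1 := (abs_le.1 (UU_bound h (ξ0 - t))).2
      have b2 : 0 ≤ UU L H (ξ0 - t + r) := UU_nonneg _
      have b3 : 0 ≤ UU L H (ξ0 - t - r) := UU_nonneg _
      have : 0 ≤ 8 * ε * d := by positivity
      linarith
  -- integrate
  have j1 : IntegrableOn (fun r => 8 * ε * d * r ^ (-(1 + 2 * s))) (Ioi (κ * d)) :=
    i1.const_mul _
  have j2 : Integrable ((Ioc (4 * d) τ).indicator fun r => l / 4 * r ^ (-(2 * s))) := by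
    rw [integrable_indicator_iff measurableSet_Ioc]
    exact i3.const_mul _
  have j3 : Integrable ((Ioi τ).indicator fun r => 2 * P * r ^ (-(1 + 2 * s))) := by
    rw [integrable_indicator_iff measurableSet_Ioi]
    exact i2.const_mul _
  have hmono : ∫ r in Ioi (κ * d), F r ≤ ∫ r in Ioi (κ * d), (8 * ε * d * r ^ (-(1 + 2 * s)) -
      (Ioc (4 * d) τ).indicator (fun r => l / 4 * r ^ (-(2 * s))) r +
      (Ioi τ).indicator (fun r => 2 * P * r ^ (-(1 + 2 * s))) r) := by
    apply setIntegral_mono_on hFi ((j1.sub j2.integrableOn).add j3.integrableOn) measurableSet_Ioi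
    intro r hr
    have hr0 : 0 < r := hκd.trans hr
    have hb := hpt r hr0
    have hpow : 0 < r ^ (1 + 2 * s) := by positivity
    have hb2 := div_le_div_of_nonneg_right hb hpow.le
    refine hb2.trans (le_of_eq ?_)
    have hneg : r ^ (-(1 + 2 * s)) = (r ^ (1 + 2 * s))⁻¹ := Real.rpow_neg hr0.le _
    have hneg2 : r ^ (-(2 * s)) = r * (r ^ (1 + 2 * s))⁻¹ := by
      rw [← hneg]
      nth_rewrite 2 [← Real.rpow_one r]
      rw [← Real.rpow_add hr0]; congr 1; ring
    change _ = 8 * ε * d * r ^ (-(1 + 2 * s)) -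
      (Ioc (4 * d) τ).indicator (fun r => l / 4 * r ^ (-(2 * s))) r +
      (Ioi τ).indicator (fun r => 2 * P * r ^ (-(1 + 2 * s))) r
    simp only [indicator]
    rw [hneg, hneg2]
    split_ifs <;> ring
  refine hmono.trans ?_
  have j12 : IntegrableOn (fun r => 8 * ε * d * r ^ (-(1 + 2 * s)) -
      (Ioc (4 * d) τ).indicator (fun r => l / 4 * r ^ (-(2 * s))) r) (Ioi (κ * d)) :=
    j1.sub j2.integrableOn
  rw [integral_add j12 j3.integrableOn, integral_sub j1 j2.integrableOn, integral_const_mul]
  have k2 : ∫ r in Ioi (κ * d), (Ioi τ).indicator (fun r => 2 * P * r ^ (-(1 + 2 * s))) r ≤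
      2 * P * ∫ r in Ioi τ, r ^ (-(1 + 2 * s)) := by
    rw [← integral_const_mul, ← integral_indicator (s := Ioi τ) measurableSet_Ioi]
    apply setIntegral_le_integral j3
    refine Eventually.of_forall fun r => ?_
    apply indicator_nonneg
    intro x hx
    have hx0 : 0 < x := hτ.trans hx
    positivity
  have k3 : l / 4 * Lam s τ d ≤
      ∫ r in Ioi (κ * d), (Ioc (4 * d) τ).indicator (fun r => l / 4 * r ^ (-(2 * s))) r := by
    rw [setIntegral_eq_integral_of_forall_compl_eq_zero, integral_indicator measurableSet_Ioc,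
      integral_const_mul, Lam]
    intro r hr
    apply indicator_of_notMem
    intro h3
    apply hr
    rw [mem_Ioi]
    have : κ * d ≤ 4 * d := mul_le_mul_of_nonneg_right hκ4 hd.le
    linarith [h3.1]
  linarith

end Pool.Agent.R217.FS
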