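import Pool.Agent.R217.FS.Moll

set_option autoImplicit false

open MeasureTheory Filter Topology Set
open scoped ContDiff Convolution

namespace Pool.Agent.R217.FS

variable {s L P ξ0 : ℝ} {H : ℝ → ℝ}

lemma rr_mul_integrable (n : ℕ) {g : ℝ → ℝ} (hg : Continuous g) :
    Integrable fun t => rr n t * g t :=
  ((rr_smooth n).continuous.mul hg).integrable_of_hasCompactSupport (rr_cs n).mul_right

lemma rr_first (n : ℕ) : ∫ t, rr n t * t = 0 := by
  have h := integral_neg_eq_self (fun t => rr n t * t) volume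
  have h2 : ∫ t, rr n (-t) * (-t) = - ∫ t, rr n t * t := by
    rw [← integral_neg]
    congr 1; funext t
    rw [rr_neg]; ring
  rw [h2] at h
  linarith

lemma rr_second (n : ℕ) : ∫ t, rr n t * t ^ 2 ≤ (1 / ((n:ℝ) + 1)) ^ 2 := by
  have h1 : ∫ t, rr n t * t ^ 2 ≤ ∫ t, rr n t * (1 / ((n:ℝ) + 1)) ^ 2 := by
    apply integral_mono (rr_mul_integrable n (by fun_prop)) (rr_mul_integrable n (by fun_prop))
    intro t
    simp only
    rcases le_or_gt (1 / ((n:ℝ) + 1)) |t| with h | h
    · rw [rr_zero n h]; simp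
    · apply mul_le_mul_of_nonneg_left _ (rr_nonneg n t)
      rw [← sq_abs t]
      exact pow_le_pow_left₀ (abs_nonneg t) h.le 2
  rwa [integral_mul_const, rr_int, one_mul] at h1

lemma mo_lower (h : Profile s L P ξ0 H) {ξ p A : ℝ} (hA : 0 ≤ A)
    (hc : ∀ y, UU L H ξ + p * (y - ξ) - A * (y - ξ) ^ 2 ≤ UU L H y) (n : ℕ) (y : ℝ) :
    UU L H ξ + p * (y - ξ) - A * (y - ξ) ^ 2 - A * (1 / ((n:ℝ) + 1)) ^ 2 ≤
      mo n (UU L H) y := by
  have h1 : ∫ t, rr n t * (UU L H ξ + p * ((y - t) - ξ) - A * ((y - t) - ξ) ^ 2) ≤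
      mo n (UU L H) y := by
    apply integral_mono (rr_mul_integrable n (by fun_prop))
      (mo_integrand (UU_cont h).measurable (UU_bound h) y)
    intro t
    exact mul_le_mul_of_nonneg_left (hc (y - t)) (rr_nonneg n t)
  have e : ∀ t, rr n t * (UU L H ξ + p * ((y - t) - ξ) - A * ((y - t) - ξ) ^ 2) =
      rr n t * (UU L H ξ + p * (y - ξ) - A * (y - ξ) ^ 2) +
        (2 * A * (y - ξ) - p) * (rr n t * t) - A * (rr n t * t ^ 2) := by
    intro t; ring
  simp_rw [e] at h1
  have i1 : Integrable fun t => rr n t * (UU L H ξ + p * (y - ξ) - A * (y - ξ) ^ 2) :=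
    rr_mul_integrable n continuous_const
  have i2 : Integrable fun t => (2 * A * (y - ξ) - p) * (rr n t * t) :=
    (rr_mul_integrable n continuous_id).const_mul _
  have i3 : Integrable fun t => A * (rr n t * t ^ 2) :=
    (rr_mul_integrable n (by fun_prop)).const_mul _
  have i12 : Integrable fun t => rr n t * (UU L H ξ + p * (y - ξ) - A * (y - ξ) ^ 2) +
        (2 * A * (y - ξ) - p) * (rr n t * t) := i1.add i2
  rw [integral_sub i12 i3, integral_add i1 i2, integral_mul_const, integral_const_mul,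
    integral_const_mul, rr_int, rr_first, one_mul, mul_zero, add_zero] at h1
  have h2 := mul_le_mul_of_nonneg_left (rr_second n) hA
  linarith

/-- Contact points of the mollified profile. -/
lemma contact (h : Profile s L P ξ0 H) {ξ p A : ℝ} (hA : 0 ≤ A)
    (hc : ∀ y, UU L H ξ + p * (y - ξ) - A * (y - ξ) ^ 2 ≤ UU L H y) (n : ℕ) :
    ∃ x : ℝ, (x - ξ) ^ 2 ≤ mo n (UU L H) ξ - UU L H ξ + A * (1 / ((n:ℝ) + 1)) ^ 2 ∧
      ∀ t, 2 * mo n (UU L H) x - mo n (UU L H) (x + t) - mo n (UU L H) (x - t) ≤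
        2 * (A + 1) * t ^ 2 := by
  have hP := P_nonneg h
  have hcont : Continuous (mo n (UU L H)) := mo_continuous (UU_cont h) (UU_bound h)
  let g : ℝ → ℝ := fun y => mo n (UU L H) y - p * (y - ξ) + (A + 1) * (y - ξ) ^ 2
  have hg : Continuous g := by
    simp only [g]; fun_prop
  have hlow : ∀ y, UU L H ξ + (y - ξ) ^ 2 - A * (1 / ((n:ℝ) + 1)) ^ 2 ≤ g y := by
    intro y
    have := mo_lower h hA hc n y
    simp only [g]
    linarith
  have hgξ : g ξ = mo n (UU L H) ξ := by simp [g]
  set R : ℝ := 1 + P + A with hR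
  have hR0 : 0 < R := by positivity
  obtain ⟨x, hxK, hx⟩ := (isCompact_Icc (a := ξ - R) (b := ξ + R)).exists_isMinOn
    ⟨ξ, by constructor <;> linarith⟩ hg.continuousOn
  have hxξ : g x ≤ g ξ := hx (by constructor <;> linarith)
  have hε : (1 / ((n:ℝ) + 1)) ^ 2 ≤ 1 := by
    apply pow_le_one₀ (by positivity)
    rw [div_le_one (by positivity)]
    have : (0:ℝ) ≤ n := Nat.cast_nonneg n
    linarith
  have hmin : ∀ y, g x ≤ g y := by
    intro y
    by_cases hy : y ∈ Icc (ξ - R) (ξ + R)
    · exact hx hy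
    · have h1 : R ^ 2 ≤ (y - ξ) ^ 2 := by
        rw [mem_Icc, not_and_or, not_le, not_le] at hy
        rcases hy with hy | hy <;> nlinarith
      have h2 := hlow y
      have h3 := (abs_le.1 (mo_bound (n := n) (UU_bound h) ξ)).2
      have h4 : A * (1 / ((n:ℝ) + 1)) ^ 2 ≤ A := mul_le_of_le_one_right hA hε
      have h5 : 0 ≤ UU L H ξ := UU_nonneg ξ
      have h6 : P + A ≤ R ^ 2 := by nlinarith
      rw [hgξ] at hxξ
      linarith
  refine ⟨x, ?_, ?_⟩
  · have := hlow x
    rw [hgξ] at hxξ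
    linarith
  · intro t
    have h1 := hmin (x + t)
    have h2 := hmin (x - t)
    simp only [g] at h1 h2
    nlinarith

/-- The viscosity inequality: at a contact point from below with a parabola. -/
lemma visc (h : Profile s L P ξ0 H) (h0 : 0 < s) (h1 : s < 1) {ξ p A : ℝ} (hξ : ξ < ξ0)
    (hA : 0 ≤ A) (hc : ∀ y, UU L H ξ + p * (y - ξ) - A * (y - ξ) ^ 2 ≤ UU L H y) {r : ℝ}
    (hr : 0 < r) :
    ff s H ξ ≤ (A + 1) * r ^ (2 - 2 * s) / (1 - s) +
      ∫ t in Ioi r, (2 * UU L H ξ - UU L H (ξ + t) - UU L H (ξ - t)) / t ^ (1 + 2 * s) := by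
  choose x hx1 hx2 using contact h hA hc
  have hUc := UU_cont h
  have hUm := hUc.aestronglyMeasurable (μ := (volume : Measure ℝ))
  -- convergence of the contact points
  have hε : Tendsto (fun n : ℕ => 1 / ((n:ℝ) + 1)) atTop (𝓝 0) :=
    tendsto_one_div_add_atTop_nhds_zero_nat
  have hm1 : Tendsto (fun n => mo n (UU L H) ξ) atTop (𝓝 (UU L H ξ)) :=
    mo_tendsto (x := fun _ => ξ) hUm hUc.continuousAt tendsto_id tendsto_const_nhds
  have hxlim : Tendsto x atTop (𝓝 ξ) := by
    have h2 : Tendsto (fun n : ℕ => mo n (UU L H) ξ - UU L H ξ + A * (1 / ((n:ℝ) + 1)) ^ 2)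
        atTop (𝓝 0) := by
      have := (hm1.sub_const (UU L H ξ)).add ((hε.pow 2).const_mul A)
      simpa using this
    have h3 : Tendsto (fun n => (x n - ξ) ^ 2) atTop (𝓝 0) :=
      squeeze_zero (fun n => sq_nonneg _) hx1 h2
    have h4 : Tendsto (fun n => |x n - ξ|) atTop (𝓝 0) := by
      have := (Real.continuous_sqrt.tendsto 0).comp h3
      simpa [Function.comp_def, Real.sqrt_sq_eq_abs] using this
    rw [tendsto_iff_dist_tendsto_zero]
    simpa [Real.dist_eq] using h4
  -- the left-hand side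
  have hdc : ContinuousOn (deriv H) (Iio ξ0) :=
    h.smooth.continuousOn_deriv_of_isOpen isOpen_Iio le_rfl
  have hffc : ContinuousAt (ff s H) ξ := by
    unfold ff
    exact continuousAt_const.mul (continuousAt_id.mul (hdc.continuousAt (Iio_mem_nhds hξ)))
  have hffm : AEStronglyMeasurable (ff s H) volume := by
    unfold ff
    exact (measurable_const.mul (measurable_id.mul (measurable_deriv H))).aestronglyMeasurable
  have hlhs : Tendsto (fun n => mo n (ff s H) (x n)) atTop (𝓝 (ff s H ξ)) :=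
    mo_tendsto hffm hffc tendsto_id hxlim
  -- the right-hand side
  have hrhs : Tendsto (fun n => (A + 1) * r ^ (2 - 2 * s) / (1 - s) +
      ∫ t in Ioi r, (2 * mo n (UU L H) (x n) - mo n (UU L H) (x n + t) -
        mo n (UU L H) (x n - t)) / t ^ (1 + 2 * s)) atTop
      (𝓝 ((A + 1) * r ^ (2 - 2 * s) / (1 - s) +
      ∫ t in Ioi r, (2 * UU L H ξ - UU L H (ξ + t) - UU L H (ξ - t)) / t ^ (1 + 2 * s))) := by
    apply Tendsto.const_add
    have hmc : ∀ n, Continuous (mo n (UU L H)) := fun n => mo_continuous hUc (UU_bound h)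
    apply tendsto_integral_of_dominated_convergence (fun t => 4 * P * t ^ (-(1 + 2 * s)))
    · intro n
      have : Measurable fun t : ℝ => (2 * mo n (UU L H) (x n) - mo n (UU L H) (x n + t) -
        mo n (UU L H) (x n - t)) / t ^ (1 + 2 * s) := by
        have := (hmc n).measurable
        fun_prop
      exact this.aestronglyMeasurable
    · exact (integrableOn_Ioi_rpow_of_lt (by linarith) hr).const_mul _
    · intro n
      filter_upwards [ae_restrict_mem measurableSet_Ioi] with t ht
      have ht0 : 0 < t := hr.trans ht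
      rw [norm_div, Real.norm_eq_abs, Real.norm_of_nonneg (by positivity),
        Real.rpow_neg ht0.le, ← div_eq_mul_inv]
      apply div_le_div_of_nonneg_right _ (by positivity)
      have b1 := abs_le.1 (mo_bound (n := n) (UU_bound h) (x n))
      have b2 := abs_le.1 (mo_bound (n := n) (UU_bound h) (x n + t))
      have b3 := abs_le.1 (mo_bound (n := n) (UU_bound h) (x n - t))
      rw [abs_le]
      constructor <;> linarith [b1.1, b1.2, b2.1, b2.2, b3.1, b3.2]
    · refine Eventually.of_forall fun t => ?_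
      apply Tendsto.div_const
      apply Tendsto.sub
      · apply Tendsto.sub
        · exact (mo_tendsto hUm hUc.continuousAt tendsto_id hxlim).const_mul 2
        · exact mo_tendsto hUm hUc.continuousAt tendsto_id (hxlim.add_const t)
      · exact mo_tendsto hUm hUc.continuousAt tendsto_id (hxlim.sub_const t)
  refine le_of_tendsto_of_tendsto hlhs hrhs ?_
  have hev : ∀ᶠ n in atTop, x n + 1 / ((n:ℝ) + 1) < ξ0 := by
    have := hxlim.add hε
    rw [add_zero] at this
    exact this.eventually (gt_mem_nhds hξ)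
  filter_upwards [hev] with n hn
  obtain ⟨heq, hint⟩ := main_eq h h0 h1 hn
  rw [heq]
  have hsplit := setIntegral_union (μ := (volume : Measure ℝ))
    (f := fun t => (2 * mo n (UU L H) (x n) - mo n (UU L H) (x n + t) -
        mo n (UU L H) (x n - t)) / t ^ (1 + 2 * s))
    (Ioc_disjoint_Ioi (le_refl r)) measurableSet_Ioi
    (hint.mono_set (s := Ioc 0 r) Ioc_subset_Ioi_self)
    (hint.mono_set (Ioi_subset_Ioi hr.le))
  rw [Ioc_union_Ioi_eq_Ioi hr.le] at hsplit
  rw [hsplit]
  gcongr
  have e1 : ∫ t in Ioc 0 r, (2 * (A + 1)) * t ^ (1 - 2 * s) =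
      (A + 1) * r ^ (2 - 2 * s) / (1 - s) := by
    rw [integral_const_mul, ← intervalIntegral.integral_of_le hr.le, integral_rpow
      (Or.inl (by linarith)), Real.zero_rpow (by linarith)]
    have h3 : 1 - 2 * s + 1 = 2 - 2 * s := by ring
    rw [h3]
    have h4 : 1 - s ≠ 0 := by linarith
    have h5 : 2 - 2 * s ≠ 0 := by
      have : 2 - 2 * s = 2 * (1 - s) := by ring
      rw [this]; positivity
    field_simp
    ring
  rw [← e1]
  apply setIntegral_mono_on (hint.mono_set Ioc_subset_Ioi_self)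
  · apply Integrable.const_mul
    rw [← IntegrableOn, ← intervalIntegrable_iff_integrableOn_Ioc_of_le hr.le]
    exact intervalIntegral.intervalIntegrable_rpow' (by linarith)
  · exact measurableSet_Ioc
  · intro t ht
    have ht0 : 0 < t := ht.1
    rw [div_le_iff₀ (by positivity), mul_assoc, ← Real.rpow_add ht0]
    have e4 : (1 - 2 * s + (1 + 2 * s)) = ((2:ℕ):ℝ) := by push_cast; ring
    rw [e4, Real.rpow_natCast]
    exact hx2 n t

end Pool.Agent.R217.FS
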