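import Pool.Agent.R217.FS.Visc

set_option autoImplicit false

open MeasureTheory Filter Topology Set
open scoped ContDiff Convolution

namespace Pool.Agent.R217.FS

variable {s L P ξ0 : ℝ} {H : ℝ → ℝ}

lemma taylor (h : Profile s L P ξ0 H) {m : ℝ} (hm : Tendsto (deriv H) (𝓝[<] ξ0) (𝓝 m)) {ε : ℝ}
    (hε : 0 < ε) : ∃ t0, 0 < t0 ∧ ∀ t, 0 < t → t ≤ t0 → |UU L H (ξ0 - t) - (-m) * t| ≤ ε * t := by
  have h1 : HasDerivWithinAt H m (Iic ξ0) ξ0 := by
    apply hasDerivWithinAt_Iic_of_tendsto_deriv (s := Iio ξ0)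
      (h.smooth.differentiableOn (by simp)) h.cont.continuousWithinAt self_mem_nhdsWithin hm
  have h2 := h1.isLittleO.def hε
  rw [eventually_nhdsWithin_iff, Metric.eventually_nhds_iff] at h2
  obtain ⟨δ, hδ, h3⟩ := h2
  refine ⟨δ / 2, by positivity, fun t ht ht' => ?_⟩
  have h4 := h3 (y := ξ0 - t) (by rw [Real.dist_eq, sub_sub_cancel_left, abs_neg, abs_of_pos ht]
                                  linarith) (by rw [mem_Iic]; linarith)
  rw [h.val, sub_sub_cancel_left, smul_eq_mul, Real.norm_eq_abs, Real.norm_eq_abs, abs_neg,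
    abs_of_pos ht] at h4
  rw [(UU_left h (by linarith : ξ0 - t < ξ0)).1]
  refine le_trans (le_of_eq ?_) h4
  congr 1; ring

/-- The case of a vanishing slope. -/
theorem case_zero (h : Profile s L P ξ0 H) (h0 : 0 < s) (h1 : s < 1)
    (hm : Tendsto (deriv H) (𝓝[<] ξ0) (𝓝 0)) : False := by
  have hUc := UU_cont h
  have hUa := UU_anti h
  -- contact points
  have hcontact : ∀ η : ℝ, 0 < η → ∃ ξ p : ℝ, ξ0 - η < ξ ∧ ξ < ξ0 ∧
      ∀ y, UU L H ξ + p * (y - ξ) - 1 * (y - ξ) ^ 2 ≤ UU L H y := by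
    intro η hη
    let g : ℝ → ℝ := fun y => UU L H y + (y - ξ0) ^ 2 + η * (y - ξ0)
    have hg : Continuous g := by simp only [g]; fun_prop
    obtain ⟨t0, ht0, htay⟩ := taylor h hm (by positivity : 0 < η / 4)
    set t := min t0 (η / 4) with ht
    have htp : 0 < t := by rw [ht]; positivity
    have hneg : g (ξ0 - t) < 0 := by
      have e1 := (abs_le.1 (htay t htp (min_le_left _ _))).2
      have e2 : t ≤ η / 4 := min_le_right _ _
      have e3 : g (ξ0 - t) = UU L H (ξ0 - t) + t ^ 2 - η * t := by simp only [g]; ring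
      rw [e3]
      nlinarith
    have htη : t < η := by
      have : t ≤ η / 4 := min_le_right _ _
      linarith
    obtain ⟨ξ, hξK, hξ⟩ := (isCompact_Icc (a := ξ0 - η) (b := ξ0)).exists_isMinOn
      ⟨ξ0, by constructor <;> linarith⟩ hg.continuousOn
    have hmin1 : g ξ ≤ g (ξ0 - t) := hξ (by constructor <;> linarith)
    have hgneg : g ξ < 0 := lt_of_le_of_lt hmin1 hneg
    have hpos : ∀ y, y ∉ Ioo (ξ0 - η) ξ0 → 0 ≤ g y := by
      intro y hy
      have hU : 0 ≤ UU L H y := UU_nonneg y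
      have : 0 ≤ (y - ξ0) * (y - ξ0 + η) := by
        rw [mem_Ioo, not_and_or, not_lt, not_lt] at hy
        rcases hy with hy | hy
        · nlinarith
        · nlinarith
      have e : g y = UU L H y + (y - ξ0) * (y - ξ0 + η) := by simp only [g]; ring
      rw [e]; linarith
    have hξI : ξ ∈ Ioo (ξ0 - η) ξ0 := by
      by_contra hcon
      exact absurd (hpos ξ hcon) (not_le.2 hgneg)
    have hmin : ∀ y, g ξ ≤ g y := by
      intro y
      by_cases hy : y ∈ Ioo (ξ0 - η) ξ0
      · exact hξ ⟨hy.1.le, hy.2.le⟩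
      · exact hgneg.le.trans (hpos y hy)
    refine ⟨ξ, -η - 2 * (ξ - ξ0), hξI.1, hξI.2, fun y => ?_⟩
    have := hmin y
    simp only [g] at this
    nlinarith
  -- the constant `c0`
  have hint : ∀ r : ℝ, 0 < r → IntegrableOn (fun t => UU L H (ξ0 - t) / t ^ (1 + 2 * s))
      (Ioi r) := by
    intro r hr
    apply ((integrableOn_Ioi_rpow_of_lt (by linarith : -(1 + 2 * s) < -1) hr).const_mul P).mono'
    · have := hUc.measurable
      have h3 : Measurable fun t : ℝ => UU L H (ξ0 - t) / t ^ (1 + 2 * s) := by fun_prop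
      exact h3.aestronglyMeasurable
    · filter_upwards [ae_restrict_mem measurableSet_Ioi] with t ht
      have ht0 : 0 < t := hr.trans ht
      rw [norm_div, Real.norm_eq_abs, Real.norm_of_nonneg (by positivity),
        Real.rpow_neg ht0.le, ← div_eq_mul_inv]
      exact div_le_div_of_nonneg_right (UU_bound h _) (by positivity)
  set c0 := ∫ t in Ioi (1:ℝ), UU L H (ξ0 - t) / t ^ (1 + 2 * s) with hc0
  have hc0pos : 0 < c0 := by
    rw [hc0, setIntegral_pos_iff_support_of_nonneg_ae]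
    · have hsub : Ioi (1:ℝ) ⊆ Function.support (fun t => UU L H (ξ0 - t) / t ^ (1 + 2 * s)) ∩
          Ioi 1 := by
        intro t ht
        refine ⟨?_, ht⟩
        have ht0 : (0:ℝ) < t := one_pos.trans ht
        have h3 := UU_left h (by linarith : ξ0 - t < ξ0)
        rw [Function.mem_support, h3.1]
        have : 0 < H (ξ0 - t) - L := by linarith [h3.2]
        positivity
      refine lt_of_lt_of_le ?_ (measure_mono hsub)
      simp
    · filter_upwards [ae_restrict_mem measurableSet_Ioi] with t ht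
      have ht0 : (0:ℝ) < t := one_pos.trans ht
      exact div_nonneg (UU_nonneg _) (by positivity)
    · exact hint 1 one_pos
  -- the choice of `r`
  have hr : ∃ r : ℝ, 0 < r ∧ r ≤ 1 ∧ 2 * r ^ (2 - 2 * s) / (1 - s) < c0 / 2 := by
    have hlim : Tendsto (fun r : ℝ => 2 * r ^ (2 - 2 * s) / (1 - s)) (𝓝[>] 0) (𝓝 0) := by
      have hc : Continuous fun r : ℝ => r ^ (2 - 2 * s) := by
        apply Continuous.rpow_const continuous_id
        intro x; right; linarith
      have h4 := (hc.tendsto 0).mono_left (nhdsWithin_le_nhds (s := Ioi 0))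
      rw [Real.zero_rpow (by linarith)] at h4
      have := (h4.const_mul 2).div_const (1 - s)
      simpa using this
    have hev := hlim.eventually (gt_mem_nhds (by positivity : 0 < c0 / 2))
    have hev2 : ∀ᶠ r : ℝ in 𝓝[>] 0, r ≤ 1 :=
      nhdsWithin_le_nhds (Iic_mem_nhds one_pos)
    obtain ⟨r, hr1, hr2, hr3⟩ := (hev.and (hev2.and self_mem_nhdsWithin)).exists
    exact ⟨r, hr3, hr2, hr1⟩
  obtain ⟨r, hr0, hr1, hrc⟩ := hr
  set J := ∫ t in Ioi r, t ^ (-(1 + 2 * s)) with hJ
  have hJi : IntegrableOn (fun t : ℝ => t ^ (-(1 + 2 * s))) (Ioi r) :=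
    integrableOn_Ioi_rpow_of_lt (by linarith) hr0
  -- the inequality at contact points
  have key : ∀ ξ p : ℝ, ξ < ξ0 → (∀ y, UU L H ξ + p * (y - ξ) - 1 * (y - ξ) ^ 2 ≤ UU L H y) →
      ff s H ξ ≤ c0 / 2 + 2 * UU L H ξ * J - c0 := by
    intro ξ p hξ hc
    have hv := visc h h0 h1 hξ zero_le_one hc hr0
    have e1 : ∫ t in Ioi r, (2 * UU L H ξ - UU L H (ξ + t) - UU L H (ξ - t)) / t ^ (1 + 2 * s) ≤
        ∫ t in Ioi r, (2 * UU L H ξ * t ^ (-(1 + 2 * s)) - UU L H (ξ0 - t) / t ^ (1 + 2 * s)) := by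
      apply setIntegral_mono_on _ ((hJi.const_mul _).sub (hint r hr0)) measurableSet_Ioi
      · intro t ht
        have ht0 : 0 < t := hr0.trans ht
        change _ ≤ 2 * UU L H ξ * t ^ (-(1 + 2 * s)) - UU L H (ξ0 - t) / t ^ (1 + 2 * s)
        rw [Real.rpow_neg ht0.le, ← div_eq_mul_inv, ← sub_div]
        apply div_le_div_of_nonneg_right _ (by positivity)
        have a1 : 0 ≤ UU L H (ξ + t) := UU_nonneg _
        have a2 : UU L H (ξ0 - t) ≤ UU L H (ξ - t) := hUa (by linarith)
        linarith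
      · apply (hJi.const_mul (4 * P)).mono'
        · have := hUc.measurable
          have h3 : Measurable fun t : ℝ =>
            (2 * UU L H ξ - UU L H (ξ + t) - UU L H (ξ - t)) / t ^ (1 + 2 * s) := by fun_prop
          exact h3.aestronglyMeasurable
        · filter_upwards [ae_restrict_mem measurableSet_Ioi] with t ht
          have ht0 : 0 < t := hr0.trans ht
          rw [norm_div, Real.norm_eq_abs, Real.norm_of_nonneg (by positivity),
            Real.rpow_neg ht0.le, ← div_eq_mul_inv]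
          apply div_le_div_of_nonneg_right _ (by positivity)
          have b1 := abs_le.1 (UU_bound h ξ)
          have b2 := abs_le.1 (UU_bound h (ξ + t))
          have b3 := abs_le.1 (UU_bound h (ξ - t))
          rw [abs_le]
          constructor <;> linarith [b1.1, b1.2, b2.1, b2.2, b3.1, b3.2]
    rw [integral_sub (hJi.const_mul _) (hint r hr0), integral_const_mul, ← hJ] at e1
    have e2 : c0 ≤ ∫ t in Ioi r, UU L H (ξ0 - t) / t ^ (1 + 2 * s) := by
      apply setIntegral_mono_set (hint r hr0)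
      · filter_upwards [ae_restrict_mem measurableSet_Ioi] with t ht
        have ht0 : 0 < t := hr0.trans ht
        exact div_nonneg (UU_nonneg _) (by positivity)
      · exact (Ioi_subset_Ioi hr1).eventuallyLE
    have e3 : (1 + 1) * r ^ (2 - 2 * s) / (1 - s) = 2 * r ^ (2 - 2 * s) / (1 - s) := by norm_num
    rw [e3] at hv
    linarith
  -- limit
  choose ξ p hξ1 hξ2 hξ3 using fun n : ℕ => hcontact (1 / ((n:ℝ) + 1)) (by positivity)
  have hξlim : Tendsto ξ atTop (𝓝 ξ0) := by
    have hε : Tendsto (fun n : ℕ => 1 / ((n:ℝ) + 1)) atTop (𝓝 0) :=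
      tendsto_one_div_add_atTop_nhds_zero_nat
    have h2 : Tendsto (fun n : ℕ => ξ0 - 1 / ((n:ℝ) + 1)) atTop (𝓝 ξ0) := by
      simpa using hε.const_sub ξ0
    exact tendsto_of_tendsto_of_tendsto_of_le_of_le h2 tendsto_const_nhds
      (fun n => (hξ1 n).le) (fun n => (hξ2 n).le)
  have hξlim' : Tendsto ξ atTop (𝓝[<] ξ0) :=
    tendsto_nhdsWithin_iff.2 ⟨hξlim, Eventually.of_forall hξ2⟩
  have hf : Tendsto (fun n => ff s H (ξ n)) atTop (𝓝 0) := by
    have := ((hξlim.mul (hm.comp hξlim')).const_mul (1 / (2 * s)))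
    simpa [ff] using this
  have hU : Tendsto (fun n => UU L H (ξ n)) atTop (𝓝 0) := by
    have := (hUc.tendsto ξ0).comp hξlim
    rw [UU_right h le_rfl] at this
    exact this
  have hR : Tendsto (fun n => c0 / 2 + 2 * UU L H (ξ n) * J - c0) atTop
      (𝓝 (c0 / 2 + 2 * 0 * J - c0)) :=
    ((((hU.const_mul 2).mul_const J).const_add _).sub_const _)
  have := le_of_tendsto_of_tendsto' hf hR fun n => key (ξ n) (p n) (hξ2 n) (hξ3 n)
  linarith

end Pool.Agent.R217.FS
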